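import Mathlib
import Pool.Agent.R254.Binom
import Pool.Agent.R254.Spiral
import Pool.Agent.R254.Tau

set_option autoImplicit false

open Complex Metric Set Filter Topology

namespace Pool.Agent.Results.MP_061dbe_an.NeverInDual

/-- The class `A`: analytic on the unit disk, normalized. -/
def ClassA (f : ℂ → ℂ) : Prop :=
  DifferentiableOn ℂ f (ball (0:ℂ) 1) ∧ f 0 = 0 ∧ deriv f 0 = 1

/-- The class `S` of univalent members of `A`. -/
def ClassS (f : ℂ → ℂ) : Prop := ClassA f ∧ InjOn f (ball (0:ℂ) 1)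

/-- The `n`-th Taylor coefficient at the origin. -/
noncomputable def co (f : ℂ → ℂ) (n : ℕ) : ℂ := iteratedDeriv n f 0 / (n.factorial : ℂ)

/-- The dual of a class `F`: all `f` in `A` whose Hadamard product with every member of `F`
has no zero in `0 < |z| < 1`. -/
def InDual (F : (ℂ → ℂ) → Prop) (f : ℂ → ℂ) : Prop :=
  ClassA f ∧ ∀ g : ℂ → ℂ, F g → ∀ z : ℂ, 0 < ‖z‖ → ‖z‖ < 1 → ∑' n : ℕ, co f n * co g n * z ^ n ≠ 0

/-- Membership of `g` in the neighbourhood `Σ_δ(f)`; at the origin, where `(g-f)/z` is understood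
as its limit `0`, the inequality is trivial for `δ > 0`. -/
def InNbhd (δ : ℝ) (f g : ℂ → ℂ) : Prop :=
  ClassA g ∧ ∀ z ∈ ball (0:ℂ) 1, z ≠ 0 →
    ‖(deriv g z - deriv f z) - (g z - f z) / z‖ + ‖(deriv g z - deriv f z) + (g z - f z) / z‖ < 2 * δ

open Pool.Agent.R254

lemma co_eq_tc (f : ℂ → ℂ) (n : ℕ) : co f n = tc f n := rfl

lemma exp_small {τ : ℝ} (h0 : 0 < τ) (h1 : τ ≤ 1/2) {z : ℂ} (hz : z ∈ ball (0:ℂ) 1) :
    ‖bP (bb τ + 1) z‖ ≤ 3 := by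
  unfold bP
  rw [norm_exp]
  have hre : (-(bb τ + 1) * log (1 - z)).re = -(arg (1 - z)) * τ := by
    unfold bb
    simp [log_im]
    ring
  rw [hre]
  have harg := abs_arg_lt_pi_div_two_iff.mpr (Or.inl (one_sub_re hz))
  have h2 : -(arg (1 - z)) * τ ≤ 1 := by
    have h3 := (abs_lt.mp harg).1
    have h4 := Real.pi_lt_d2
    have h5 : -(arg (1 - z)) ≤ 2 := by linarith
    nlinarith
  calc Real.exp (-(arg (1 - z)) * τ) ≤ Real.exp 1 := Real.exp_le_exp.mpr h2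
    _ ≤ 3 := by
      have := Real.exp_one_lt_d9
      linarith

lemma bb_norm {τ : ℝ} (h0 : 0 < τ) (h1 : τ ≤ 1/2) : ‖bb τ‖ ≤ 3/2 ∧ ‖bb τ - 2‖ ≤ 7/2 := by
  constructor
  · unfold bb
    rw [norm_neg]
    have := norm_add_le (1:ℂ) (τ * I)
    rw [norm_tau h0.le, norm_one] at this
    linarith
  · have e : bb τ - 2 = -(3 + τ * I) := by unfold bb; ring
    rw [e, norm_neg]
    have := norm_add_le (3:ℂ) (τ * I)
    have h3 : ‖(3:ℂ)‖ = 3 := by simp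
    rw [norm_tau h0.le, h3] at this
    linarith

/-- the perturbation -/
noncomputable def uu (κ c : ℂ) (τ : ℝ) (z : ℂ) : ℂ := κ * (z * (bP (bb τ) (c * z) - 1))

lemma rot_mem {c : ℂ} (hc : ‖c‖ ≤ 1) {z : ℂ} (hz : z ∈ ball (0:ℂ) 1) : c * z ∈ ball (0:ℂ) 1 := by
  rw [mem_ball_zero_iff] at hz ⊢
  rw [norm_mul]
  nlinarith [norm_nonneg z, norm_nonneg c]

lemma uu_deriv (κ c : ℂ) (hc : ‖c‖ ≤ 1) (τ : ℝ) {z : ℂ} (hz : z ∈ ball (0:ℂ) 1) :
    HasDerivAt (uu κ c τ) (κ * ((bP (bb τ) (c * z) - 1) + z * (bb τ * bP (bb τ + 1) (c * z) * c))) z := by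
  have h1 := bP_deriv (bb τ) (rot_mem hc hz)
  have h2 : HasDerivAt (fun z => c * z) c z := by simpa using (hasDerivAt_id z).const_mul c
  have h3 : HasDerivAt (fun z => bP (bb τ) (c * z)) (bb τ * bP (bb τ + 1) (c * z) * c) z := h1.comp z h2
  have h4 := ((hasDerivAt_id z).mul (h3.sub_const 1)).const_mul κ
  simp only [id, one_mul] at h4
  exact h4

lemma bP_b {τ : ℝ} {z : ℂ} (hz : z ∈ ball (0:ℂ) 1) : bP (bb τ) z = (1 - z) * bP (bb τ + 1) z := by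
  have h := bP_add (bb τ) 1 z
  rw [bP_one hz] at h
  rw [h]
  have := one_sub_ne hz
  field_simp

lemma uu_bound {τ : ℝ} (h0 : 0 < τ) (h1 : τ ≤ 1/2) (κ : ℂ) {c : ℂ} (hc : ‖c‖ ≤ 1) {z : ℂ}
    (hz : z ∈ ball (0:ℂ) 1) (hz0 : z ≠ 0) :
    ‖deriv (uu κ c τ) z - uu κ c τ z / z‖ + ‖deriv (uu κ c τ) z + uu κ c τ z / z‖ ≤ 23 * ‖κ‖ := by
  rw [(uu_deriv κ c hc τ hz).deriv]
  have hζ := rot_mem hc hz
  set ζ := c * z with hζd
  have e0 : uu κ c τ z / z = κ * (bP (bb τ) ζ - 1) := by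
    unfold uu; rw [← hζd]; field_simp
  have e1 : κ * ((bP (bb τ) ζ - 1) + z * (bb τ * bP (bb τ + 1) ζ * c)) - κ * (bP (bb τ) ζ - 1) =
      κ * (ζ * (bb τ * bP (bb τ + 1) ζ)) := by rw [hζd]; ring
  have e2 : κ * ((bP (bb τ) ζ - 1) + z * (bb τ * bP (bb τ + 1) ζ * c)) + κ * (bP (bb τ) ζ - 1) =
      κ * (bP (bb τ + 1) ζ * (2 + (bb τ - 2) * ζ) - 2) := by
    rw [bP_b hζ, hζd]; ring
  rw [e0, e1, e2]
  have hz1 : ‖ζ‖ < 1 := by simpa using hζ
  have hP := exp_small h0 h1 hζ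
  have hPn := norm_nonneg (bP (bb τ + 1) ζ)
  obtain ⟨hb, hb2⟩ := bb_norm h0 h1
  have n1 : ‖κ * (ζ * (bb τ * bP (bb τ + 1) ζ))‖ ≤ ‖κ‖ * (3/2 * 3) := by
    rw [norm_mul κ, norm_mul ζ, norm_mul (bb τ)]
    apply mul_le_mul_of_nonneg_left _ (norm_nonneg _)
    have h1 : ‖bb τ‖ * ‖bP (bb τ + 1) ζ‖ ≤ 3/2 * 3 := mul_le_mul hb hP hPn (by norm_num)
    have h2 : 0 ≤ ‖bb τ‖ * ‖bP (bb τ + 1) ζ‖ := by positivity
    nlinarith [norm_nonneg ζ]
  have n2 : ‖κ * (bP (bb τ + 1) ζ * (2 + (bb τ - 2) * ζ) - 2)‖ ≤ ‖κ‖ * (3 * (11/2) + 2) := by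
    rw [norm_mul]
    apply mul_le_mul_of_nonneg_left _ (norm_nonneg _)
    have a2 : ‖(2:ℂ)‖ = 2 := by simp
    have h1 : ‖2 + (bb τ - 2) * ζ‖ ≤ 11/2 := by
      have a1 := norm_add_le (2 : ℂ) ((bb τ - 2) * ζ)
      have a3 : ‖(bb τ - 2) * ζ‖ ≤ 7/2 := by
        rw [norm_mul]
        nlinarith [norm_nonneg (bb τ - 2), norm_nonneg ζ]
      linarith
    have h2 : ‖bP (bb τ + 1) ζ * (2 + (bb τ - 2) * ζ)‖ ≤ 3 * (11/2) := by
      rw [norm_mul]
      exact mul_le_mul hP h1 (norm_nonneg _) (by norm_num)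
    have h3 := norm_sub_le (bP (bb τ + 1) ζ * (2 + (bb τ - 2) * ζ)) 2
    linarith
  linarith

lemma normSq_ga {τ : ℝ} (h0 : 0 < τ) (h1 : τ ≤ 1/2) : normSq (ga τ) ≤ 1 ∧ 1 + ga τ ≠ 0 := by
  have hre : (ga τ).re = 1 - τ^2 := by
    unfold ga; rw [pow_two]; simp; ring
  have him : (ga τ).im = τ := by
    unfold ga; rw [pow_two]; simp
  constructor
  · rw [normSq_apply, hre, him]
    have h2 : τ^2 ≤ 1/4 := by nlinarith
    have h3 : 0 ≤ τ^2 * (1 - τ^2) := mul_nonneg (sq_nonneg τ) (by linarith)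
    nlinarith
  · intro h
    have := congrArg Complex.im h
    rw [add_im, him] at this
    simp at this
    linarith

lemma exists_rot (x : ℂ) : ∃ c : ℂ, ‖c‖ = 1 ∧ x * c = -((‖x‖ : ℝ) : ℂ) := by
  by_cases hx : x = 0
  · exact ⟨1, by simp, by simp [hx]⟩
  · refine ⟨-((‖x‖ : ℝ) : ℂ) / x, ?_, ?_⟩
    · have : ‖x‖ ≠ 0 := norm_ne_zero_iff.mpr hx
      rw [norm_div, norm_neg, norm_real, norm_norm, div_self this]
    · field_simp

lemma bP_neg_le {τ s : ℝ} (h0 : 0 < τ) (h1 : τ ≤ 1/2) (hs : 0 ≤ s) :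
    ‖bP (1 + ga τ) (-(s:ℂ))‖ ≤ 1 := by
  unfold bP
  rw [norm_exp]
  have e1 : (1 : ℂ) - -(s:ℂ) = ((1 + s : ℝ) : ℂ) := by push_cast; ring
  rw [e1, ← ofReal_log (by linarith)]
  have e2 : (-(1 + ga τ) * ((Real.log (1 + s) : ℝ) : ℂ)).re = -(2 - τ^2) * Real.log (1 + s) := by
    rw [re_mul_ofReal]
    unfold ga
    rw [pow_two]
    simp
    left
    ring
  rw [e2]
  apply Real.exp_le_one_iff.mpr
  have h2 : 0 ≤ Real.log (1 + s) := Real.log_nonneg (by linarith)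
  have h3 : 0 ≤ 2 - τ^2 := by nlinarith
  nlinarith [mul_nonneg h3 h2]

/-- For every `x` in the closed disk and every `δ > 0` there are `g ∈ Σ_δ(z/(1-xz))`, `h ∈ S` and a
point where their Hadamard product vanishes (the defining series converges there, with sum `0`). -/
theorem main (x : ℂ) (hx : ‖x‖ ≤ 1) (δ : ℝ) (hδ : 0 < δ) :
    ∃ (g h : ℂ → ℂ) (z₀ : ℂ), InNbhd δ (fun z => z / (1 - x * z)) g ∧ ClassS h ∧
      0 < ‖z₀‖ ∧ ‖z₀‖ < 1 ∧ HasSum (fun n : ℕ => co g n * co h n * z₀ ^ n) 0 := by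
  obtain ⟨τ, h0, h1, r, hr0, hr1, hR⟩ := exists_large (23 / (2 * δ))
  obtain ⟨c, hc, hxc⟩ := exists_rot x
  have hc0 : c ≠ 0 := by intro h; rw [h] at hc; simp at hc
  have hci : ‖c⁻¹‖ = 1 := by rw [norm_inv, hc, inv_one]
  set Ψ : ℂ := (∑' n : ℕ, tt τ n * (r : ℂ) ^ n) - 1 with hΨ
  have hRpos : 0 < 23 / (2 * δ) := by positivity
  have hΨpos : 0 < ‖Ψ‖ := hRpos.trans hR
  have hΨ0 : Ψ ≠ 0 := norm_pos_iff.mp hΨpos
  set w : ℂ := -(((‖x‖ * r : ℝ)) : ℂ) with hw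
  set κ : ℂ := -(bP (1 + ga τ) w / Ψ) with hκ
  have hκn : 23 * ‖κ‖ < 2 * δ := by
    have h2 : ‖bP (1 + ga τ) w‖ ≤ 1 := bP_neg_le h0 h1 (by positivity)
    have h3 : ‖κ‖ ≤ 1 / ‖Ψ‖ := by
      rw [hκ, norm_neg, norm_div]
      exact div_le_div_of_nonneg_right h2 hΨpos.le
    have h4 : 23 * (1 / ‖Ψ‖) < 2 * δ := by
      rw [div_lt_iff₀ (by positivity)] at hR
      rw [mul_one_div, div_lt_iff₀ hΨpos]
      linarith
    linarith
  -- the functions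
  set f : ℂ → ℂ := fun z => z / (1 - x * z) with hf
  have hxz : ∀ z ∈ ball (0:ℂ) 1, x * z ∈ ball (0:ℂ) 1 := fun z hz => rot_mem hx hz
  have hfd : ∀ z ∈ ball (0:ℂ) 1, HasDerivAt f ((1 * (1 - x * z) - z * (-x)) / (1 - x * z)^2) z := by
    intro z hz
    have h2 : HasDerivAt (fun z => 1 - x * z) (-x) z := by
      simpa using ((hasDerivAt_id z).const_mul x).const_sub 1
    exact (hasDerivAt_id z).div h2 (one_sub_ne (hxz z hz))
  have hud : ∀ z ∈ ball (0:ℂ) 1, HasDerivAt (uu κ c⁻¹ τ) (κ * ((bP (bb τ) (c⁻¹ * z) - 1) +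
      z * (bb τ * bP (bb τ + 1) (c⁻¹ * z) * c⁻¹))) z := fun z hz => uu_deriv κ c⁻¹ hci.le τ hz
  set g : ℂ → ℂ := fun z => f z + uu κ c⁻¹ τ z with hg
  set h : ℂ → ℂ := fun z => z * bP (1 + ga τ) z with hh
  have hgd : ∀ z ∈ ball (0:ℂ) 1, HasDerivAt g ((1 * (1 - x * z) - z * (-x)) / (1 - x * z)^2 +
      κ * ((bP (bb τ) (c⁻¹ * z) - 1) + z * (bb τ * bP (bb τ + 1) (c⁻¹ * z) * c⁻¹))) z :=
    fun z hz => (hfd z hz).add (hud z hz)
  have hzero : (0:ℂ) ∈ ball (0:ℂ) 1 := mem_ball_self one_pos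
  have hzd : DifferentiableOn ℂ (fun z : ℂ => z) (ball 0 1) := differentiableOn_id
  have hhd : ∀ z ∈ ball (0:ℂ) 1, HasDerivAt h (1 * bP (1 + ga τ) z + z * ((1 + ga τ) * bP (1 + ga τ + 1) z)) z :=
    fun z hz => (hasDerivAt_id z).mul (bP_deriv _ hz)
  have hS : ClassS h := by
    obtain ⟨a1, a2⟩ := normSq_ga h0 h1
    refine ⟨⟨fun z hz => (hhd z hz).differentiableAt.differentiableWithinAt, ?_, ?_⟩, spiral_inj a1 a2⟩
    · simp [hh]
    · rw [(hhd 0 hzero).deriv, bP_zero]; simp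
  have hAg : ClassA g := by
    refine ⟨fun z hz => (hgd z hz).differentiableAt.differentiableWithinAt, ?_, ?_⟩
    · simp [hg, hf, uu]
    · rw [(hgd 0 hzero).deriv, mul_zero, mul_zero, bP_zero]; simp
  have hN : InNbhd δ f g := by
    refine ⟨hAg, ?_⟩
    intro z hz hz0
    have e1 : deriv g z - deriv f z = deriv (uu κ c⁻¹ τ) z := by
      rw [(hgd z hz).deriv, (hfd z hz).deriv, (hud z hz).deriv]; ring
    have e2 : g z - f z = uu κ c⁻¹ τ z := by simp [hg]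
    rw [e1, e2]
    exact (uu_bound h0 h1 κ hci.le hz hz0).trans_lt hκn
  -- coefficients
  have hpc1 : ∀ n, pc 1 n = 1 := by
    intro n
    unfold pc
    apply Finset.prod_eq_one
    intro k _
    have : (k:ℂ) + 1 ≠ 0 := Nat.cast_add_one_ne_zero k
    rw [add_comm, div_self this]
  have cg : ∀ n : ℕ, co g (n + 1) = x ^ n + κ * ((c⁻¹)^n * pc (bb τ) n - if n = 0 then 1 else 0) := by
    intro n
    have hA1 : DifferentiableOn ℂ (fun z => bP 1 (x * z)) (ball 0 1) :=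
      (bP_diff 1).comp (Differentiable.differentiableOn (by fun_prop)) hxz
    have hA2 : DifferentiableOn ℂ (fun z => bP (bb τ) (c⁻¹ * z)) (ball 0 1) :=
      (bP_diff (bb τ)).comp (Differentiable.differentiableOn (by fun_prop)) (fun z hz => rot_mem hci.le hz)
    have hA3 : DifferentiableOn ℂ (fun _ : ℂ => (-1:ℂ)) (ball 0 1) := differentiableOn_const _
    have hA4 : DifferentiableOn ℂ (fun z => bP (bb τ) (c⁻¹ * z) + (-1)) (ball 0 1) := hA2.add hA3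
    have hA5 : DifferentiableOn ℂ (fun z => κ * (bP (bb τ) (c⁻¹ * z) + (-1))) (ball 0 1) := hA4.const_mul κ
    have hA6 : DifferentiableOn ℂ (fun z => bP 1 (x * z) + κ * (bP (bb τ) (c⁻¹ * z) + (-1))) (ball 0 1) :=
      hA1.add hA5
    have e : g =ᶠ[𝓝 0] fun z => z * (bP 1 (x * z) + κ * (bP (bb τ) (c⁻¹ * z) + (-1))) := by
      filter_upwards [ball_mem_nhds (0:ℂ) one_pos] with z hz
      simp only [hg, hf, uu]
      rw [bP_one (hxz z hz)]
      ring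
    rw [co_eq_tc, tc_congr e, tc_shift hA6, tc_add hA1 hA5, tc_const_mul, tc_add hA2 hA3,
      tc_rot (bP_diff 1) hx, tc_rot (bP_diff (bb τ)) hci.le, tc_bP, tc_bP, hpc1, tc_const]
    split_ifs <;> ring
  have ch : ∀ n : ℕ, co h (n + 1) = pc (1 + ga τ) n := by
    intro n
    rw [co_eq_tc, hh, tc_shift (bP_diff _), tc_bP]
  refine ⟨g, h, r * c, hN, hS, ?_, ?_, ?_⟩
  · rw [norm_mul, hc, mul_one, norm_real, Real.norm_eq_abs, abs_of_pos hr0]; exact hr0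
  · rw [norm_mul, hc, mul_one, norm_real, Real.norm_eq_abs, abs_of_pos hr0]; exact hr1
  · rw [← hasSum_nat_add_iff' 1]
    have z0 : co g 0 = 0 := by rw [co_eq_tc, tc_zero]; exact hAg.2.1
    simp only [Finset.range_one, Finset.sum_singleton, z0, zero_mul, sub_zero]
    -- first part
    have hwm : ‖w‖ < 1 := by
      rw [hw, norm_neg, norm_real, Real.norm_eq_abs, abs_of_nonneg (by positivity)]
      nlinarith [norm_nonneg x]
    have s1 := tc_hasSum (bP_diff (1 + ga τ)) hwm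
    obtain ⟨C, hC⟩ := tt_bound h0.le h1
    have hsum : Summable (fun n : ℕ => tt τ n * (r : ℂ) ^ n) := by
      apply Summable.of_norm_bounded (g := fun n : ℕ => C * r ^ n)
      · exact (summable_geometric_of_lt_one hr0.le hr1).mul_left C
      · intro n
        rw [norm_mul, norm_pow]
        have : ‖(r : ℂ)‖ = r := by rw [norm_real, Real.norm_eq_abs, abs_of_pos hr0]
        rw [this]
        exact mul_le_mul_of_nonneg_right (hC n) (by positivity)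
    have s2 := (hsum.hasSum.sub (hasSum_ite_eq (0 : ℕ) (1:ℂ))).mul_left κ
    have s3 := (s1.add s2).mul_left ((r:ℂ) * c)
    have e1 : (r:ℂ) * c * (bP (1 + ga τ) w + κ * ((∑' n : ℕ, tt τ n * (r : ℂ) ^ n) - 1)) = 0 := by
      rw [← hΨ, hκ]
      have : bP (1 + ga τ) w + -(bP (1 + ga τ) w / Ψ) * Ψ = 0 := by
        field_simp; ring
      rw [this, mul_zero]
    rw [e1] at s3
    have hfe : ∀ a b : ℕ → ℂ, (∀ k, a k = b k) → ∀ s : ℂ, HasSum b s → HasSum a s := by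
      intro a b hab s hs
      have : a = b := funext hab
      rw [this]; exact hs
    refine hfe _ _ ?_ _ s3
    intro n
    rw [cg, ch, tc_bP]
    have e2 : w = x * (r * c) := by
      rw [hw]
      calc -(((‖x‖ * r : ℝ)) : ℂ) = -((‖x‖ : ℝ) : ℂ) * r := by push_cast; ring
        _ = x * c * r := by rw [hxc]
        _ = _ := by ring
    have e3 : ((r:ℂ) * c)^(n+1) = (r * c) * ((r:ℂ)^n * c^n) := by rw [pow_succ, mul_pow]; ring
    have e4 : c⁻¹ ^ n * c ^ n = 1 := by rw [← mul_pow, inv_mul_cancel₀ hc0, one_pow]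
    rw [e2, e3, mul_pow x, mul_pow (r:ℂ) c n]
    unfold tt
    by_cases hn : n = 0
    · subst hn
      simp [pc_zero]
    · simp only [hn, if_false, sub_zero]
      calc (x ^ n + κ * (c⁻¹ ^ n * pc (bb τ) n)) * pc (1 + ga τ) n * (r * c * ((r:ℂ) ^ n * c ^ n))
          = (r * c) * (pc (1 + ga τ) n * (x ^ n * ((r:ℂ)^n * c^n)) +
            κ * (pc (1 + ga τ) n * pc (bb τ) n * (r:ℂ)^n * (c⁻¹ ^ n * c ^ n))) := by ring
        _ = _ := by rw [e4]; ring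

/-- For every `x` with `|x| ≤ 1` and every `δ > 0` the neighbourhood `Σ_δ(z/(1-xz))` is not
contained in the dual of `S`; in particular the inclusion asked for in Q1 fails for every
admissible pair `(x, ρ)`. -/
theorem result :
    (∀ x : ℂ, ‖x‖ ≤ 1 → ∀ δ : ℝ, 0 < δ →
      ∃ (g h : ℂ → ℂ) (z₀ : ℂ), InNbhd δ (fun z => z / (1 - x * z)) g ∧ ClassS h ∧
        0 < ‖z₀‖ ∧ ‖z₀‖ < 1 ∧ HasSum (fun n : ℕ => co g n * co h n * z₀ ^ n) 0) ∧
    (∀ (x : ℂ) (ρ : ℝ), ‖x‖ ≤ ρ → ρ ≤ 1 →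
      ¬ (∀ g : ℂ → ℂ, InNbhd (1 / (1 + ρ) ^ 2) (fun z => z / (1 - x * z)) g → InDual ClassS g)) := by
  refine ⟨main, ?_⟩
  intro x ρ hx hρ H
  have hρ0 : 0 ≤ ρ := (norm_nonneg x).trans hx
  obtain ⟨g, h, z₀, h1, h2, h3, h4, h5⟩ := main x (hx.trans hρ) (1 / (1 + ρ) ^ 2) (by positivity)
  exact (H g h1).2 h h2 z₀ h3 h4 h5.tsum_eq

end Pool.Agent.Results.MP_061dbe_an.NeverInDual
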